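import Mathlib

set_option autoImplicit false

namespace Pool.Agent.Results.MP_d2fb05_co.GewirtzCounterexample

/-- `I` is the incidence relation of a generalized quadrangle of order `(s ^ 2, s)`. -/
structure IsGQ {P L : Type} (I : P → L → Prop) (s : ℕ) : Prop where
  /-- every line has `s ^ 2 + 1` points -/
  line_card : ∀ l, {p | I p l}.ncard = s ^ 2 + 1
  /-- every point lies on `s + 1` lines -/
  point_card : ∀ p, {l | I p l}.ncard = s + 1
  /-- two points lie on at most one common line -/
  unique_line : ∀ p q, p ≠ q → ∀ l m, I p l → I q l → I p m → I q m → l = m
  /-- for every point `p` not on a line `l` there is exactly one point of `l`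
  collinear with `p` -/
  one_collinear : ∀ p l, ¬ I p l → ∃! q, I q l ∧ ∃ m, I p m ∧ I q m

/-- `H` is a hemisystem: every point is on exactly `(s + 1) / 2` lines of `H` (`s` odd). -/
def IsHemisystem {P L : Type} (I : P → L → Prop) (s : ℕ) (H : Set L) : Prop :=
  Odd s ∧ ∀ p, {l | l ∈ H ∧ I p l}.ncard = (s + 1) / 2

/-- The graph `Γ(H)`: vertices are the lines in `H`, two distinct lines being adjacent when
they meet in a point. -/
def gammaGraph {P L : Type} (I : P → L → Prop) (H : Set L) : SimpleGraph H where
  Adj l m := l ≠ m ∧ ∃ p, I p l ∧ I p m
  symm := ⟨fun _ _ h => ⟨h.1.symm, h.2.imp fun _ hp => ⟨hp.2, hp.1⟩⟩⟩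
  loopless := ⟨fun _ h => h.1 rfl⟩

/-- The automorphism `φ` of `Γ(H)` is the restriction to `H` of a collineation `(σ, τ)`
(permutations of points and lines preserving incidence) that fixes `H` setwise. -/
def IsInduced {P L : Type} (I : P → L → Prop) (H : Set L)
    (φ : gammaGraph I H ≃g gammaGraph I H) : Prop :=
  ∃ (σ : Equiv.Perm P) (τ : Equiv.Perm L), (∀ p l, I (σ p) (τ l) ↔ I p l) ∧
    (∀ l, τ l ∈ H ↔ l ∈ H) ∧ ∀ l : H, τ l = φ l

/-! ### The data: `280` points, `112` lines -/

/-- the four lines through each point, seven bits per line -/
def TB : Nat := 0xd379827db75727df716a7c57d5a7d17d8a6dd757a6d971626c779526d57daa5d779a25cf714a5cb75425c17dba4c379b24c9759a4cd71924d769923d965823df61523c36d4a3d56d9a2db658a2dd615a2c169422cf69b21cd6da21c7656a1d361621cb6dba0c969aa0c5657a0d161720dd5591fcf5971fc95d61fdf5141fd95599ecd5d79ecb5969edb5149ed15db1dd359a9dd75159dc15551dc75db9cc559a1cc35589cd55181cdf4599bcd4d71bcb4961bdd4149bb338e9bb530e1bdb4591acf4979ac94d69ad94141ab734e9ab13ce1ad34db99d149a19c345599d541519b33cf99b534f19c54db18c749a98d741898c145818b730f98b138f18d73d997dd35817db31517c339417bf25097b92d017d539916df35896d931596c13d496bb29096bd21016cf39b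95cd3da95d131695c535615bb2d195bd25115cb3db14c939a14d331794c735714bf21194b929114d129813df25793db21613c72d593ab4d293ad41213d32d892d925712dd21692c529512af45292a949212d729b91d52db11c925491cd21411ab49391ad45311c329a90c12da10cf21990cb25910af41390a94d310dd1db0fd71570fc91950fd31140fbefcf0fb8f8e0fa50cb0fa304a8fb6ec98fb2e080fd919b8ecd1d88ed51168ec51548ebcf8f8ebafce8ea508b8ea300a0eb4e898eb0e480edf15a8dd11990dc11d60dcf1158dbcf4f0dbaf0e0da704b8da10ca0db6e490db2e888ddb11a0cc71d98ccb1580cc31978cbef0f8cb8f4e8ca700b0ca108a8cb4e090cb0ec88cdb0db8bd50578bc90958bd10140bad1d18bab1508bbcecd8bb8e8c0b9efc90b9af080bdf09b0acd0d80ad70160ac70548aad1910aab1100abee8d0abaecc8a9cf890a98f480ad905a09d309909c30d689cf01509af15109a91d009bee4d89bae0c099ef49899af8889dd01a88c50d988cb05888c109708af11188a919088bce0d08b8e4c889cf098898fc888defda07d4f5707caf9587d2f1487b50d307b301207951cd079118c07aeecb87aae4a87daf9a86cefd806d6f1686c4f5406b709306b1052069718d86931cc86aee8b06aae0a06dcf5b85d0f9985c2fd605ccf1505b505385b3092859714d059310c05ace4b05a8eca05d8f1b04c6fd904c8f5884c0f9784b701384b10d2849510d849114c84ace0b84a8e8a84d8eda83d6e5783cae9503d0e14839d1d3839b11203a6fd103a2f5083970cf839108e03dce9a02ceed882d4e1602c6e54029f193829915202a6f9182a2f10029508f02930ce82dae5b01d2e9981c0ed681cce15819d153019b19281a4f5181a0fd0019504f819300e01dee1b80c4ed900c8e5800c2e97009f11300991d280a4f1100a0f90809700f009104e80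

/-- the incidence matrix -/
def CB : Nat := 0x2000200010008000000100004000000000080000002000000080000000000000000200040002008000100000400000008000800000000000000002000000080000002000000040000400010002000020000020000000000002008000000000002000000000000800000200400008000040000080000100000020000000000008000000000002008000000000004080000020000008800000000800400000000000080000000008000000400000000000800800000100010002000000040000080000004000000000400000000000080000008000001000400008000000080200001000000000000004000010000000000000040000080000010080000400000200800000000004000010000000000000040000100000000000200080400001000000080000000800000100000000010000001000000000100000000001004004004000000004000001000010000000001000000000000100000000010000001000080200200000000020000004000000008000000000802000000000200000000000020004200000800000001000020020000000002000000000000000008000000000800100002000080000100000041000000000000100000400000000000001000004000000100000020004000020000100004000000400000000000001000004000000000000010000041000000200020010000000002000000000400000020000000002000000000000400008010000100000040040000000100000020000000000004000000000400000020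0001888000000000000000800020000000800000020000080200000000000000000000000814400000000000000001040000000000200800002000000080000000000000000000044120000000000000000208000000000010040000000401000000000000000000000002221000000000000000400010000000400000010010000000400000000000000000000000018480000002002000000000000008000080000000000000002000020000000000000008184000004004000000000000000002000020000000000080000800000000000000000442200000800800000000000000040000400000000000004000040000000000000000022110000001001000000000000000010000100000000000001000010000000000000000000248800000000000000200200000000000000008020008020000000000000000000000042440000000000000400400000000000080200000000000008020000000000000000008812000000000000080080000000000004010000000040100000000000000000000000112100000000000000100100000000000000004010000000040100000000000000000000004088200000000800010000002008000000000000000000000200800000000000000000210410000000001080020080000000000000000000000000000000200800000000000082020400000000204001004000000000000000000000000001004000000000000000001041080000000400020000001004000000000000000000000000001004000000000000001080804420000000000000000000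8000080000000000000002000020000000000000080001120810000000000000000000002000020000000000080000800000000000000000204041010400000000000000000040000400000000000004000040000000000000000400022082080000000000000000000010000100000000000001000010000000000000000000040080120410000000000000000000000000802000008000000200000000000000000000200180482000000000000000000000020000000800002008000000000000000000000800404102040000000000000000000000004010000000100400000000000000000000001002208108000000000000000000000100000004004000000100000000000000000000000000000080100201000800004000020040000008000000100000000000000000000000000000002020040040000200001001008000000002004000000000000000000000000000000000400408008004000080000000002004000100800000000000000000000000000000000010080102000001000020000000100804000000200000000000000000000000000000000200001000801002010008000000100080100000000000000000000000000000000000000080000420200400400002004000004020000000000000000000000000000000000001000020004004080080000100800000000008010000000000000000000000000000000000400008100801020004000000200000000402000000000000000000000000000000080100000000800000018010020100020000100000000000000000000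0000000000000040200000000002004002020040040000080000400000000000000000000000000000000000080100000100800400408008001000020000000000000000000000000000000000000004020004000000210080102000000400008000000000000000000000000000000008000000102004000000080000400801002010000000000000000000000000000000000002004000100800000000020000120200400400000000000000000000000000000000000100800000000200400400008004004080080000000000000000000000000000000004000000200000010080000100002100801020000080008000800080000080000080000200000008000000000000008000000000002000004008000800000200000200004008000000000002000000000000002000000080000008000040040000010000400000020000008000000000002000020000000800000000000400040000400040000001000001000000002000000080000800000000000200000000002080008008000008000000000080000000100000000010000000400000000040000000180008000020000020000000004000004000000000400000000000100000000010008000400000200000801000002000000100000000000000080000000008000100000008000400000010000044000008000000000000080001000000000100000000000000080040000020400010000000008400000000000004040000000000000000040400000000040000001400040000000000401000040000000000000000040400000000000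00000040200000200200008000000200008000000800000000000200000008000000000002000002000010200020000000010020000000000200000008000000000002000000080000001000020000200002000080001000000000010000200000000020000000000000010000010020000010000100200000004000200000000000000100000000010000200000000000201000010010000000400000020000040000000004000000100000000010000000000010010010000040001000000001001000000000100000000000040000000004000000f0000000000000000000000000008200000000000000000000000000802008020000000f0000000000000000000000000041000000000000000000000802000000000000802000f0000000000000000000000820000000000000000000000000000040100000004010000f0000000000000000000004100000000000000000000000040100000004010000000000f0000000000000000082000000000000000008000000200000000000000080200000000f0000000000000000410000000000000000000200800000000000000200000008000000f0000000000008200000000000000000000400000010000000000001000000040000000f0000000000041000000000000000000000010040000000000000000040100000000000f0000000820000000000000002000020000000000000000000000080000800000000000f0000004100000000000008000080000000000000000000000000002000020000000000f00820000000000000000001000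01000000000000000000000000010000100000000000f0410000000000000000400004000000000000000000000000040000400000000000000fc0000000000000000000000000002000020000000800008000000000000000000000003f0000000000000000000000000000080000802000020000000000000000000000000000fc0000000000000000000000000004000040000400004000000000000000000000000003f0000000000000000000000010000100001000010000000000000000000000000000000fc0000000000000080200000000000000080000002000000000000000000000000000003f0000000000200000008000000000000002008000000000000000000000000000000000fc0000000010000000400000000000040000001000000000000000000000000000000003f0000000000401000000000000000001004000000000000000000000000000000000000fc0000008020000000000008020000000000000000000000000000000000000000000003f0000000000802008020000000000000000000000000000000000000000000000000000fc0000000040100000004010000000000000000000000000000000000000000000000003f0040100000004010000000000000000000000000000000000000000000000000000000ffc0000000000000000000000000000000000000000000000000000000000000000000003ff0000000000000000000000000000000000000000000000000000000000000000000000ffc00000000000000000000000000000000000000000000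00000000000000000000000003ff0000000000000000000000000000000000000000000000000000000000000000000000ffc0000000000000000000000000000000000000000000000000000000000000000000003ff0000000000000000000000000000000000000000000000000000000000000000000000ffc0000000000000000000000000000000000000000000000000000000000000000000003ff0000000000000000000000000000000000000000000000000000000000000000000000ffc0000000000000000000000000000000000000000000000000000000000000000000003ff0000000000000000000000000000000000000000000000000000000000000000000000ffc0000000000000000000000000000000000000000000000000000000000000000000003ff0000000000000000000000000000000000000000000000000000000000000000000000ffc0000000000000000000000000000000000000000000000000000000000000000000003ff0000000000000000000000000000000000000000000000000000000000000000000000ffc0000000000000000000000000000000000000000000000000000000000000000000003ff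

/-- the automorphism on the first 56 lines -/
def FB : Nat := 0x6ed9a3566c97ae62c15aa5ab14294e992a43e78e9c46890a02e58a943668c98244c890142c4881c3c68c0c1c284040c080

/-- the induced map on points -/
def SB : Nat := 0x8b45e29158944e21118743e190d85c2a13087bbd9eaf479bc9e2f077bb9daec75ba9d2e883c1a0b0481c0a03007fbf9fafc7dbe9f2f867b399acc65b2992c863b198ac461b0982c05faf97abc5dae972b873b99cae471b89c2e06fb79badc6db69b2d86bb59aad469b49a2d0582c55caf56ab16cb75a2d566b255aa950a953a9948a551a8942a0369b0d66a349a0ce6632990ee763a9d0e672389c0de6e31988c0612f978ba5c2d968b2582b15caa5429948a2504aa51269248a411e8e46a313e9e4ea71369a4ca612e9645a29108943a190a8441a0902803f1fcfa7c3d9e8f278229108642209007a3c1f8f89e4e26930964a2391892481d8e870391b8d866321a8d06230170bc5a2c148a0562a0e870361a0c8602a140b8584e261289046220f878422009848201107838160a0683012080301c0a04008000602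

/-- `i`-th line on point `p` -/
def T (p i : Nat) : Nat := (TB >>> (28 * p + 7 * i)) % 128

/-- the set of points on line `l`, as a bit mask -/
def cm (l : Nat) : Nat := (CB >>> (280 * l)) % 2 ^ 280

/-- incidence -/
def inc (p l : Nat) : Bool := Nat.testBit (cm l) p

/-- the automorphism -/
def F (l : Nat) : Nat := (FB >>> (7 * l)) % 128

/-- its action on points -/
def S (p : Nat) : Nat := (SB >>> (9 * p)) % 512

/-- `x` is zero or a power of two -/
def pow0 (x : Nat) : Bool := x == 0 || x == 2 ^ (Nat.log2 x)

/-- bounded universal quantifier over naturals, by structural recursion -/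
def allB (n : Nat) (f : Nat → Bool) : Bool :=
  match n with
  | 0 => true
  | k + 1 => f k && allB k f

/-- number of `i < n` with `f i` -/
def cntB (n : Nat) (f : Nat → Bool) : Nat :=
  match n with
  | 0 => 0
  | k + 1 => (if f k then 1 else 0) + cntB k f

theorem allB_spec {n : Nat} {f : Nat → Bool} (h : allB n f = true) :
    ∀ i, i < n → f i = true := by
  induction n with
  | zero => intro i hi; omega
  | succ k ih =>
    simp only [allB, Bool.and_eq_true] at h
    intro i hi
    rcases Nat.lt_succ_iff_lt_or_eq.mp hi with h1 | h1
    · exact ih h.2 i h1
    · rw [h1]; exact h.1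

theorem cntB_spec (n : Nat) (f : Nat → Bool) :
    cntB n f = ((Finset.range n).filter (fun i => f i = true)).card := by
  induction n with
  | zero => simp [cntB]
  | succ k ih =>
    rw [Finset.range_add_one, Finset.filter_insert, cntB, ih]
    by_cases hk : f k = true
    · simp [hk, add_comm]
    · simp [hk]

theorem pow0_spec {x i j : Nat} (h : pow0 x = true) (hi : Nat.testBit x i = true)
    (hj : Nat.testBit x j = true) : i = j := by
  simp only [pow0, Bool.or_eq_true, beq_iff_eq] at h
  rcases h with h | h
  · rw [h] at hi; simp at hi
  · rw [h, Nat.testBit_two_pow] at hi hj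
    simp at hi hj
    omega

/-! ### Kernel checked facts -/

theorem chkA : allB 280 (fun p => allB 4 (fun i =>
    decide (T p i < 112) && inc p (T p i) && (decide (T p i < 56) == decide (i < 2)))) = true := by
  decide +kernel

theorem chkA2 : allB 280 (fun p => decide (T p 0 < T p 1) && decide (T p 1 < T p 2) &&
    decide (T p 2 < T p 3)) = true := by
  decide +kernel

theorem chkA3 : allB 280 (fun p => allB 112 (fun l =>
    !(inc p l) || (l == T p 0 || l == T p 1 || l == T p 2 || l == T p 3))) = true := by
  decide +kernel

theorem chkB : allB 112 (fun l => cntB 280 (fun p => inc p l) == 10) = true := by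
  decide +kernel

theorem chkC : allB 112 (fun l => allB 112 (fun m =>
    l == m || pow0 (cm l &&& cm m))) = true := by
  decide +kernel

theorem chkD : allB 280 (fun p => allB 112 (fun l =>
    inc p l || cntB 4 (fun i => !(cm (T p i) &&& cm l == 0)) == 1)) = true := by
  decide +kernel

theorem chkF : allB 56 (fun l => decide (F l < 56) && (F (F l) == l)) = true := by
  decide +kernel

theorem chkG : allB 280 (fun p => decide (S p < 280) && inc (S p) (F (T p 0)) &&
    inc (S p) (F (T p 1))) = true := by
  decide +kernel

theorem chkH : allB 112 (fun m => !(inc (S 10) m && inc (S 1) m)) = true := by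
  decide +kernel

theorem chkM : (inc 10 64 && inc 1 64) = true := by
  decide +kernel

/-! ### Consequences -/

theorem inc_iff {p l : Nat} (hp : p < 280) (hl : l < 112) :
    inc p l = true ↔ (l = T p 0 ∨ l = T p 1 ∨ l = T p 2 ∨ l = T p 3) := by
  constructor
  · intro h
    have h1 := allB_spec (allB_spec chkA3 p hp) l hl
    simp only [h, Bool.not_true, Bool.false_or, Bool.or_eq_true, beq_iff_eq] at h1
    tauto
  · intro h
    have hA : ∀ i, i < 4 → inc p (T p i) = true := by
      intro i hi
      have h1 := allB_spec (allB_spec chkA p hp) i hi
      simp only [Bool.and_eq_true] at h1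
      exact h1.1.2
    rcases h with h | h | h | h <;> rw [h]
    · exact hA 0 (by norm_num)
    · exact hA 1 (by norm_num)
    · exact hA 2 (by norm_num)
    · exact hA 3 (by norm_num)

theorem T_lt {p i : Nat} (hp : p < 280) (hi : i < 4) : T p i < 112 := by
  have h1 := allB_spec (allB_spec chkA p hp) i hi
  simp only [Bool.and_eq_true, decide_eq_true_eq] at h1
  exact h1.1.1

theorem T_half {p i : Nat} (hp : p < 280) (hi : i < 4) : T p i < 56 ↔ i < 2 := by
  have h1 := allB_spec (allB_spec chkA p hp) i hi
  simp only [Bool.and_eq_true, decide_eq_true_eq, beq_iff_eq, decide_eq_decide] at h1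
  exact h1.2

theorem T_mono {p : Nat} (hp : p < 280) : T p 0 < T p 1 ∧ T p 1 < T p 2 ∧ T p 2 < T p 3 := by
  have h1 := allB_spec chkA2 p hp
  simp only [Bool.and_eq_true, decide_eq_true_eq] at h1
  exact ⟨h1.1.1, h1.1.2, h1.2⟩

theorem meet_unique {l m p q : Nat} (hl : l < 112) (hm : m < 112) (hlm : l ≠ m)
    (h1 : inc p l = true) (h2 : inc q l = true) (h3 : inc p m = true) (h4 : inc q m = true) :
    p = q := by
  have h := allB_spec (allB_spec chkC l hl) m hm
  simp only [Bool.or_eq_true, beq_iff_eq] at h
  rcases h with h | h
  · exact absurd h hlm
  · unfold inc at h1 h2 h3 h4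
    exact pow0_spec h (by rw [Nat.testBit_land, h1, h3]; rfl) (by rw [Nat.testBit_land, h2, h4]; rfl)

set_option exponentiation.threshold 300 in
theorem inc_lt {p l : Nat} (h : inc p l = true) : p < 280 := by
  unfold inc cm at h
  rw [Nat.testBit_mod_two_pow] at h
  simp only [Bool.and_eq_true, decide_eq_true_eq] at h
  exact h.1

theorem F_spec {l : Nat} (hl : l < 56) : F l < 56 ∧ F (F l) = l := by
  have h1 := allB_spec chkF l hl
  simp only [Bool.and_eq_true, decide_eq_true_eq, beq_iff_eq] at h1
  exact h1

theorem S_spec {p : Nat} (hp : p < 280) :
    S p < 280 ∧ inc (S p) (F (T p 0)) = true ∧ inc (S p) (F (T p 1)) = true := by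
  have h1 := allB_spec chkG p hp
  simp only [Bool.and_eq_true, decide_eq_true_eq] at h1
  exact ⟨h1.1.1, h1.1.2, h1.2⟩

/-- the incidence relation -/
def Inc (p : Fin 280) (l : Fin 112) : Prop := inc p.val l.val = true

/-- the hemisystem -/
def Hs : Set (Fin 112) := {l | l.val < 56}

/-- the `i`-th line on a point as an element of `Fin 112` -/
def TF (p : Fin 280) (i : Fin 4) : Fin 112 := ⟨T p.val i.val, T_lt p.isLt i.isLt⟩

theorem Inc_iff (p : Fin 280) (l : Fin 112) : Inc p l ↔ ∃ i, TF p i = l := by
  unfold Inc
  rw [inc_iff p.isLt l.isLt]
  constructor
  · rintro (h | h | h | h)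
    · exact ⟨0, Fin.ext h.symm⟩
    · exact ⟨1, Fin.ext h.symm⟩
    · exact ⟨2, Fin.ext h.symm⟩
    · exact ⟨3, Fin.ext h.symm⟩
  · rintro ⟨i, rfl⟩
    fin_cases i
    · left; rfl
    · right; left; rfl
    · right; right; left; rfl
    · right; right; right; rfl

theorem TF_inj (p : Fin 280) : Function.Injective (TF p) := by
  have hm := T_mono p.isLt
  intro i j hij
  have h : T p.val i.val = T p.val j.val := congrArg Fin.val hij
  fin_cases i <;> fin_cases j <;> simp_all <;> omega

theorem TF_mem (p : Fin 280) (i : Fin 4) : TF p i ∈ Hs ↔ i.val < 2 :=
  T_half p.isLt i.isLt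

theorem isGQ : IsGQ Inc 3 where
  line_card := by
    intro l
    have h1 := allB_spec chkB l.val l.isLt
    simp only [beq_iff_eq] at h1
    rw [cntB_spec] at h1
    have h2 : ((fun p : Fin 280 => p.val) '' {p | Inc p l}) =
        (((Finset.range 280).filter (fun i => inc i l.val = true) : Finset ℕ) : Set ℕ) := by
      ext n
      simp only [Set.mem_image, Set.mem_ofPred_eq, Finset.coe_filter, Finset.mem_range]
      constructor
      · rintro ⟨p, hp, rfl⟩
        exact ⟨p.isLt, hp⟩
      · rintro ⟨hn, hi⟩
        exact ⟨⟨n, hn⟩, hi, rfl⟩
    rw [← Set.ncard_image_of_injective _ Fin.val_injective, h2, Set.ncard_coe_finset, h1]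
    norm_num
  point_card := by
    intro p
    have h : {l | Inc p l} = Set.range (TF p) := by
      ext l
      rw [Set.mem_ofPred_eq, Inc_iff]
      rfl
    rw [h, ← Set.image_univ, Set.ncard_image_of_injective _ (TF_inj p), Set.ncard_univ,
      Nat.card_eq_fintype_card, Fintype.card_fin]
  unique_line := by
    intro p q hpq l m h1 h2 h3 h4
    by_contra hlm
    apply hpq
    exact Fin.ext (meet_unique l.isLt m.isLt (fun h => hlm (Fin.ext h)) h1 h2 h3 h4)
  one_collinear := by
    intro p l hpl
    have hD := allB_spec (allB_spec chkD p.val p.isLt) l.val l.isLt
    have hinc : inc p.val l.val = false := by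
      cases h : inc p.val l.val
      · rfl
      · exact absurd h hpl
    rw [hinc, Bool.false_or, beq_iff_eq, cntB_spec, Finset.card_eq_one] at hD
    obtain ⟨i, hi⟩ := hD
    have hi1 : i ∈ ({i} : Finset ℕ) := Finset.mem_singleton_self i
    rw [← hi, Finset.mem_filter, Finset.mem_range] at hi1
    obtain ⟨hi4, hne⟩ := hi1
    simp only [Bool.not_eq_true', beq_eq_false_iff_ne, ne_eq] at hne
    obtain ⟨q, hq⟩ := Nat.exists_testBit_of_ne_zero hne
    rw [Nat.testBit_land, Bool.and_eq_true] at hq
    have hqm : inc q (T p.val i) = true := hq.1
    have hql : inc q l.val = true := hq.2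
    have hq280 := inc_lt hql
    have key : ∀ (q' : Fin 280) (m : Fin 112), Inc q' l → Inc p m → Inc q' m →
        m.val = T p.val i := by
      intro q' m hq'l hpm hq'm
      obtain ⟨j, rfl⟩ := (Inc_iff p m).1 hpm
      have hj : j.val ∈ ({i} : Finset ℕ) := by
        rw [← hi, Finset.mem_filter, Finset.mem_range]
        refine ⟨j.isLt, ?_⟩
        simp only [Bool.not_eq_true', beq_eq_false_iff_ne, ne_eq]
        intro h0
        have hb : Nat.testBit (cm (T p.val j.val) &&& cm l.val) q'.val = true := by
          rw [Nat.testBit_land, Bool.and_eq_true]
          exact ⟨hq'm, hq'l⟩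
        rw [h0] at hb
        simp at hb
      rw [Finset.mem_singleton] at hj
      show T p.val j.val = T p.val i
      rw [hj]
    refine ⟨⟨q, hq280⟩, ⟨hql, TF p ⟨i, hi4⟩, ?_, hqm⟩, ?_⟩
    · exact (Inc_iff p _).2 ⟨_, rfl⟩
    · rintro q' ⟨hq'l, m, hpm, hq'm⟩
      have hm := key q' m hq'l hpm hq'm
      have hlm : l.val ≠ T p.val i := by
        intro h
        apply hpl
        rw [Inc_iff]
        exact ⟨⟨i, hi4⟩, Fin.ext h.symm⟩
      apply Fin.ext
      have hq'm2 : inc q'.val (T p.val i) = true := by
        rw [← hm]; exact hq'm
      exact meet_unique l.isLt (T_lt p.isLt hi4) hlm hq'l hql hq'm2 hqm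

theorem isHemi : IsHemisystem Inc 3 Hs := by
  refine ⟨by decide, ?_⟩
  intro p
  have h : {l | l ∈ Hs ∧ Inc p l} = {TF p 0, TF p 1} := by
    ext l
    simp only [Set.mem_ofPred_eq, Set.mem_insert_iff, Set.mem_singleton_iff]
    constructor
    · rintro ⟨hl, hi⟩
      obtain ⟨i, rfl⟩ := (Inc_iff p l).1 hi
      have := (TF_mem p i).1 hl
      fin_cases i
      · left; rfl
      · right; rfl
      · simp at this
      · simp at this
    · rintro (rfl | rfl)
      · exact ⟨(TF_mem p 0).2 (by decide), (Inc_iff p _).2 ⟨0, rfl⟩⟩
      · exact ⟨(TF_mem p 1).2 (by decide), (Inc_iff p _).2 ⟨1, rfl⟩⟩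
  rw [h, Set.ncard_pair]
  intro h2
  have := TF_inj p h2
  simp at this

/-- the map on the vertices of `Γ(H)` -/
def fH (l : Hs) : Hs :=
  ⟨⟨F l.1.val, lt_trans (F_spec l.2).1 (by norm_num)⟩, (F_spec l.2).1⟩

theorem fH_fH (l : Hs) : fH (fH l) = l := by
  apply Subtype.ext
  apply Fin.ext
  exact (F_spec l.2).2

/-- two distinct lines of `H` on a point are the first two lines of that point -/
theorem two_lines {l m : Hs} (hlm : l ≠ m) {p : Fin 280} (hl : Inc p l) (hm : Inc p m) :
    (l.1 = TF p 0 ∧ m.1 = TF p 1) ∨ (l.1 = TF p 1 ∧ m.1 = TF p 0) := by
  obtain ⟨i, hi⟩ := (Inc_iff p l).1 hl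
  obtain ⟨j, hj⟩ := (Inc_iff p m).1 hm
  have hi2 : i.val < 2 := (TF_mem p i).1 (by rw [hi]; exact l.2)
  have hj2 : j.val < 2 := (TF_mem p j).1 (by rw [hj]; exact m.2)
  have hij : i ≠ j := by
    rintro rfl
    apply hlm
    apply Subtype.ext
    rw [← hi, ← hj]
  rw [← hi, ← hj]
  fin_cases i <;> fin_cases j <;> simp_all

theorem fH_adj {l m : Hs} (h : (gammaGraph Inc Hs).Adj l m) :
    (gammaGraph Inc Hs).Adj (fH l) (fH m) := by
  obtain ⟨hlm, p, hl, hm⟩ := h
  refine ⟨?_, ⟨S p.val, (S_spec p.isLt).1⟩, ?_⟩
  · intro he
    apply hlm
    rw [← fH_fH l, ← fH_fH m, he]
  · have hS := S_spec p.isLt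
    rcases two_lines hlm hl hm with ⟨h1, h2⟩ | ⟨h1, h2⟩
    · constructor
      · show inc (S p.val) (F l.1.val) = true
        rw [h1]; exact hS.2.1
      · show inc (S p.val) (F m.1.val) = true
        rw [h2]; exact hS.2.2
    · constructor
      · show inc (S p.val) (F l.1.val) = true
        rw [h1]; exact hS.2.2
      · show inc (S p.val) (F m.1.val) = true
        rw [h2]; exact hS.2.1

/-- the automorphism of the Gewirtz graph -/
def phi : gammaGraph Inc Hs ≃g gammaGraph Inc Hs where
  toFun := fH
  invFun := fH
  left_inv := fH_fH
  right_inv := fH_fH
  map_rel_iff' := by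
    intro l m
    constructor
    · intro h
      have := fH_adj h
      rwa [show fH ((⟨fH, fH, fH_fH, fH_fH⟩ : Hs ≃ Hs) l) = l from fH_fH l,
        show fH ((⟨fH, fH, fH_fH, fH_fH⟩ : Hs ≃ Hs) m) = m from fH_fH m] at this
    · intro h
      exact fH_adj h

theorem phi_not_induced : ¬ IsInduced Inc Hs phi := by
  rintro ⟨σ, τ, hI, -, hτ⟩
  -- the point map is forced
  have key : ∀ p : Fin 280, (σ p).val = S p.val := by
    intro p
    have hS := S_spec p.isLt
    have e0 : TF p 0 ∈ Hs := (TF_mem p 0).2 (by decide)
    have e1 : TF p 1 ∈ Hs := (TF_mem p 1).2 (by decide)
    have t0 : τ (TF p 0) = (fH ⟨TF p 0, e0⟩ : Hs) := hτ ⟨TF p 0, e0⟩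
    have t1 : τ (TF p 1) = (fH ⟨TF p 1, e1⟩ : Hs) := hτ ⟨TF p 1, e1⟩
    have i0 : Inc (σ p) (τ (TF p 0)) := (hI p _).2 ((Inc_iff p _).2 ⟨0, rfl⟩)
    have i1 : Inc (σ p) (τ (TF p 1)) := (hI p _).2 ((Inc_iff p _).2 ⟨1, rfl⟩)
    rw [t0] at i0
    rw [t1] at i1
    have hne : F (T p.val 0) ≠ F (T p.val 1) := by
      intro h
      have h2 : F (F (T p.val 0)) = F (F (T p.val 1)) := by rw [h]
      rw [(F_spec (l := T p.val 0) e0).2, (F_spec (l := T p.val 1) e1).2] at h2
      have := (T_mono p.isLt).1
      omega
    exact meet_unique (lt_trans (F_spec (l := T p.val 0) e0).1 (by norm_num))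
      (lt_trans (F_spec (l := T p.val 1) e1).1 (by norm_num)) hne i0 hS.2.1 i1 hS.2.2
  have hM := chkM
  rw [Bool.and_eq_true] at hM
  have a1 : Inc (σ ⟨10, by norm_num⟩) (τ ⟨64, by norm_num⟩) := (hI _ _).2 hM.1
  have a2 : Inc (σ ⟨1, by norm_num⟩) (τ ⟨64, by norm_num⟩) := (hI _ _).2 hM.2
  unfold Inc at a1 a2
  rw [key] at a1 a2
  have h := allB_spec chkH (τ ⟨64, by norm_num⟩).val (τ ⟨64, by norm_num⟩).isLt
  simp only at a1 a2
  rw [a1, a2] at h
  simp at h

/-- There are a finite generalized quadrangle of order `(3 ^ 2, 3)`, a hemisystem `H` of it and an
automorphism of the strongly regular graph `Γ(H)` that is not induced by any collineation. -/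
theorem result : ∃ (P L : Type) (_ : Finite P) (_ : Finite L) (I : P → L → Prop) (H : Set L),
    IsGQ I 3 ∧ IsHemisystem I 3 H ∧
      ∃ φ : gammaGraph I H ≃g gammaGraph I H, ¬ IsInduced I H φ :=
  ⟨Fin 280, Fin 112, inferInstance, inferInstance, Inc, Hs, isGQ, isHemi, phi, phi_not_induced⟩

end Pool.Agent.Results.MP_d2fb05_co.GewirtzCounterexample
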