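import Pool.Agent.helper56.Hemi.Final

set_option autoImplicit false

namespace Pool.Agent.Results.MP_d2fb05_co.InducedIndexAtMostTwo

open Pool.Agent.helper56.Hemi

/-- Let `s ≥ 3` be odd and let `H` be a hemisystem of a finite generalized quadrangle of order
`(s ^ 2, s)`. Then the automorphisms of `Γ(H)` that are restrictions of collineations fixing `H`
form a subgroup of index `1` or `2` of `Aut Γ(H)`. -/
theorem result {P L : Type} [Finite P] [Finite L] (I : P → L → Prop) (s : ℕ) (H : Set L)
    (hs : 3 ≤ s) (hG : IsGQ I s) (hH : IsHemisystem I s H) :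
    (inducedGroup I H).index = 1 ∨ (inducedGroup I H).index = 2 :=
  index_main I s H hs hG hH

end Pool.Agent.Results.MP_d2fb05_co.InducedIndexAtMostTwo
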