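import Pool.Agent.helper56.Hemi.Final

set_option autoImplicit false

namespace Pool.Agent.Results.MP_d2fb05_co.InducedOrSpecialSets

open Pool.Agent.helper56.Hemi

/-- Let `s ≥ 3` be odd and let `H` be a hemisystem of a finite generalized quadrangle of order
`(s ^ 2, s)`. Every automorphism `φ` of `Γ(H)` comes with a permutation `σ` of the points that
is compatible with it on the lines of `H`; and either `φ` is the restriction of a collineation
fixing `H`, or there are lines outside `H` and `σ` maps the point set of each of them to a
special set. -/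
theorem result {P L : Type} [Finite P] [Finite L] (I : P → L → Prop) (s : ℕ) (H : Set L)
    (hs : 3 ≤ s) (hG : IsGQ I s) (hH : IsHemisystem I s H)
    (φ : gammaGraph I H ≃g gammaGraph I H) :
    ∃ σ : Equiv.Perm P, (∀ p (l : H), I (σ p) (φ l) ↔ I p l) ∧
      (IsInduced I H φ ∨
        ((∃ m, m ∉ H) ∧ ∀ m, m ∉ H → IsSpecialSet I s (σ '' {p | I p m}))) :=
  special_main I s H hs hG hH φ

end Pool.Agent.Results.MP_d2fb05_co.InducedOrSpecialSets
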