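import Pool.Agent.helper56.Hemi.Classical

set_option autoImplicit false

namespace Pool.Agent.Results.MP_d2fb05_co.SurjectiveThreeRegular

open Pool.Agent.helper56.Hemi

/-- Let `s ≥ 11` be odd and let `H` be any hemisystem of a finite generalized quadrangle of order
`(s ^ 2, s)` in which any three pairwise disjoint lines form a 3-regular triad (as in the
Hermitian surface `H(3, s ^ 2)`). Then every automorphism of `Γ(H)` is the restriction to `H` of a
collineation fixing `H` setwise. -/
theorem result {P L : Type} [Finite P] [Finite L] (I : P → L → Prop) (s : ℕ) (H : Set L)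
    (hs : 11 ≤ s) (hG : IsGQ I s) (h3 : IsThreeRegular I s) (hH : IsHemisystem I s H)
    (φ : gammaGraph I H ≃g gammaGraph I H) : IsInduced I H φ :=
  classical_main I s H hs hG h3 hH φ

end Pool.Agent.Results.MP_d2fb05_co.SurjectiveThreeRegular
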